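import Pool.Agent.H310R3.Bridge
import Pool.Agent.H310R3.ProbB

/-!
# No finite-to-one map from the permutations of an infinite set of reals to the set

In every model of Zermelo set theory (so in every model of ZF): if an infinite set `a` injects
into the power set of the natural numbers, then there is no finite-to-one function from the set
of all permutations of `a` to `a`.
-/

namespace Pool.Agent.Results.MP_e2756a_lc.NoFiniteToOne

open FirstOrder FirstOrder.Language
open Pool.Agent.Helper672.Plain (LSet Zermelo)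
open Pool.Agent.H310Cards

universe u

theorem result (M : Type u) [LSet.Structure M] [Zermelo M] (a w p s i f : M)
    (hw : IsOmega w) (hp : IsPow p w) (hs : IsSymSet s a) (hi : IsInj i a p)
    (ha : ¬ IsFinite a) : ¬ IsFinToOne f s a := by
  letI := Pool.Agent.Helper672.Plain.toL (M := M)
  letI : Pool.Agent.Helper672.ZFA.IsModel M := Pool.Agent.Helper672.Plain.isModel_toL
  intro hf
  have hW : ∀ z : M, Pool.Agent.Helper672.ZFA.Mem z w ↔
      ∃ n : Pool.Agent.Helper672.ZFA.INat M, Pool.Agent.Helper672.ZFA.code n = z :=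
    fun z => Pool.Agent.H310.mem_omega hw
  have hP := fun z : M => Pool.Agent.H310.mem_pow (z := z) hW hp
  have hS := fun z : M => Pool.Agent.H310.mem_sym (z := z) hs
  obtain ⟨j, hj, hj'⟩ := Pool.Agent.H310.exists_fun
    (α := Pool.Agent.Helper672.ZFA.El a)
    (β := Pool.Agent.Helper672.ZFA.IPow M (Pool.Agent.Helper672.ZFA.INat M)) hi.1
    (fun x => x.2) fun z hz => (hP z).1 hz
  obtain ⟨h, hh, hh'⟩ := Pool.Agent.H310.exists_fun
    (α := Pool.Agent.H310.IPm M (Pool.Agent.Helper672.ZFA.El a))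
    (β := Pool.Agent.Helper672.ZFA.El a) hf.1
    (fun x => (hS _).2 ⟨x, rfl⟩) fun z hz => Pool.Agent.H310.mem_El.1 hz
  refine Pool.Agent.H310.no_fto hj (fun x y hxy => ?_)
    (Pool.Agent.H310.not_finP (fun z => Pool.Agent.H310.mem_El) ha) hh fun y => ?_
  · exact Subtype.ext (hi.2 _ _ _ ((hj' x (j y)).1 hxy) ((hj' y (j y)).1 rfl))
  · have hI : Pool.Agent.Helper672.ZFA.Int M (fun σ => h σ = y) :=
      Pool.Agent.Helper672.ZFA.Int.eq hh (Pool.Agent.Helper672.ZFA.IntF.const y)
    refine Pool.Agent.H310.finP_of_finite (t := hI.small.elt) hI (fun z => hI.small.mem) ?_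
    refine hf.2 y.1 y.2 _ fun x => ?_
    refine (hI.small.mem (z := x)).trans ⟨?_, fun hx => ?_⟩
    · rintro ⟨σ, hσ, rfl⟩
      exact (hh' σ y).1 hσ
    · obtain ⟨q, h1, h2⟩ := hx
      obtain ⟨x', y', h3, h4, h5⟩ := hf.1.1 q h2
      obtain ⟨rfl, -⟩ := Pool.Agent.Helper672.ZFA.op_inj
        ((Pool.Agent.H310.ordPair_iff.1 h1).symm.trans (Pool.Agent.H310.ordPair_iff.1 h5))
      obtain ⟨σ, rfl⟩ := (hS x).1 h3
      exact ⟨σ, (hh' σ y).2 ⟨q, h1, h2⟩, rfl⟩

end Pool.Agent.Results.MP_e2756a_lc.NoFiniteToOne
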